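import Pool.Agent.H503R3.FR.Final
import Pool.Agent.H768R3.FR.Parity
import Pool.Agent.H54.FR.TaskCoord
import Pool.Agent.H503R3.FR.TaskMem_helper782
import Pool.Agent.H503R3.FR.Root_helper331
import Pool.Agent.H614R3.TC
import Pool.Agent.H503R3.FR.Psi_helper600
import Pool.Agent.H123R3.FR.Scale
import Pool.Agent.H503R3.FR.KV_helper557
import Pool.Agent.H174R3.FR.Colon
import Pool.Agent.H66R3.FR.ZsReg
import Pool.Agent.H3R3.FR.ZsPrime
import Pool.Agent.H503R3.FR.TaskZsDim_helper62
import Pool.Agent.H503R3.FR.TaskHR_helper405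
import Pool.Agent.H980R3.FR.TaskVertex
import Pool.Agent.H503R3.FR.TaskG1_helper798
import Pool.Agent.H347.FR.TaskG3
import Pool.Agent.H510R3.FR.G4
import Pool.Agent.H503R3.FR.TaskG_helper568
import Pool.Agent.H22R3.FR.Case1
import Pool.Agent.H591R3.FR.Case2
import Pool.Agent.H474R3.FR.TaskSFR
import Pool.Agent.H339R3.FR.HT
import Pool.Agent.H503R3.FR.TaskV2_helper544
import Pool.Agent.H503R3.FR.TaskG2_helper929

/-!
# The second theorem of Bertini fails for F-rational singularities

`k` is an algebraically closed field of characteristic 2, `w = X₁³X₂ + X₀X₁X₂³` and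
`R = k[X₀², X₁⁴, X₁²X₂², X₂⁴, X₁²w, X₂²w] ⊆ k[X₀, X₁, X₂]`. All local rings of the
affine variety `Spec R ⊆ 𝔸⁶ ⊆ ℙ⁶` are F-rational, but its section by a
hyperplane `a₀ + a₁ t₁ + ... + a₆ t₆ = 0` with `a₁ ≠ 0` is never F-rational.
-/

set_option autoImplicit false

namespace Pool.Agent.Results.MP_85340c_ag.NoBertiniFRational

open H503R3.FR

/-- For every algebraically closed field `k` of characteristic 2 there is an
F-rational affine variety `Spec R` in `𝔸⁶ ⊆ ℙ⁶` all of whose sections by hyperplanes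
`a₀ + a₁ t₁ + ... + a₆ t₆ = 0` with `a₁ ≠ 0` are not F-rational. -/
theorem result (k : Type) [Field k] [IsAlgClosed k] [CharP k 2] :
    IsDomain (R k) ∧ FRational 2 (R k) ∧ Algebra.adjoin k (Set.range (r k)) = ⊤ ∧
      ∀ a : Fin 7 → k, a 1 ≠ 0 → ¬ FRational 2 (R k ⧸ Ideal.span {hyp k a}) :=
  ⟨inferInstance,
    frational Pool.Agent.H614R3.TC.taskTC Scale.taskScale SFR474.taskSFR Parity768.taskParity
      Coord54.taskCoord Mem782.taskMem Root331.taskRoot Psi600.taskPsi KV557.taskKV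
      Colon.taskColon Pool.Agent.H66R3.FR.taskZsReg H3R3.FR.ZsPrime.taskZsPrime
      taskZsDim HT339.taskHT taskHR V980.taskVertex V2h544.taskV2 taskCase1 Case2H591.taskCase2 k,
    gens k,
    fun a ha => TG.taskG Mem782.taskMem G1H798.taskG1 taskG2 G3h347.taskG3 G4.taskG4 k a ha⟩

end Pool.Agent.Results.MP_85340c_ag.NoBertiniFRational
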